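import Pool.Agent.Helper47.DS.Defs

/-!
# Row GEO-A of Theorem D*: the lanes in one cell
-/

open Set BIC
open scoped Matroid

namespace BICS.C79

/-- the path `f 0, f 1, .., f (n - 1)` -/
def pth (f : ℕ → ℕ × ℕ) (n : ℕ) : List (ℕ × ℕ) := (List.range n).map f

lemma mem_pth {f : ℕ → ℕ × ℕ} {n : ℕ} {v : ℕ × ℕ} : v ∈ pth f n ↔ ∃ i < n, f i = v := by
  simp [pth]

lemma isPth_pth {f : ℕ → ℕ × ℕ} {n : ℕ} (h1 : ∀ i, i + 1 < n → adj (f i) (f (i + 1)))
    (h2 : ∀ i j, i < j → j < n → f i ≠ f j) : IsPth (pth f n) := by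
  constructor
  · rw [List.isChain_iff_getElem]
    intro i hi
    simp only [pth, List.length_map, List.length_range] at hi
    simp only [pth, List.getElem_map, List.getElem_range]
    exact h1 i hi
  · rw [pth, List.nodup_map_iff_inj_on List.nodup_range]
    intro i hi j hj hij
    rw [List.mem_range] at hi hj
    rcases lt_trichotomy i j with h | h | h
    · exact absurd hij (h2 i j h hj)
    · exact h
    · exact absurd hij.symm (h2 j i h hi)

lemma head_pth {f : ℕ → ℕ × ℕ} {n : ℕ} (hn : 0 < n) : (pth f n).head? = some (f 0) := by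
  rw [List.head?_eq_getElem?, pth, List.getElem?_map, List.getElem?_range hn]
  rfl

lemma last_pth {f : ℕ → ℕ × ℕ} {n : ℕ} (hn : 0 < n) :
    (pth f n).getLast? = some (f (n - 1)) := by
  rw [List.getLast?_eq_getElem?, pth, List.length_map, List.length_range, List.getElem?_map,
    List.getElem?_range (by omega)]
  rfl

lemma isPth_append {l l' : List (ℕ × ℕ)} (h : IsPth l) (h' : IsPth l')
    (hd : l.Disjoint l') (hadj : ∀ a b, l.getLast? = some a → l'.head? = some b → adj a b) :
    IsPth (l ++ l') := by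
  refine ⟨?_, List.Nodup.append h.2 h'.2 hd⟩
  rw [List.isChain_append]
  refine ⟨h.1, h'.1, ?_⟩
  intro a ha b hb
  exact hadj a b ha hb

lemma adj_mk {a b c d : ℕ} (h : (a = c ∧ (b + 1 = d ∨ d + 1 = b)) ∨
    (b = d ∧ (a + 1 = c ∨ c + 1 = a))) : adj (a, b) (c, d) := h

lemma ne_mk {a b c d : ℕ} (h : a ≠ c ∨ b ≠ d) : ((a, b) : ℕ × ℕ) ≠ (c, d) := by
  intro he
  rw [Prod.mk.injEq] at he
  omega

/-! ### straight lanes -/

/-- a straight lane at the height `h` -/
def str (h : ℕ) (i : ℕ) : ℕ × ℕ := (i, h)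

lemma str_mem {h w : ℕ} {v : ℕ × ℕ} (hv : v ∈ pth (str h) w) : v.2 = h ∧ v.1 < w := by
  obtain ⟨i, hi, rfl⟩ := mem_pth.1 hv
  exact ⟨rfl, hi⟩

lemma str_pth {h w : ℕ} : IsPth (pth (str h) w) := by
  apply isPth_pth
  · intro i _
    exact adj_mk (by omega)
  · intro i j hij _
    exact ne_mk (by omega)

/-! ### lanes above the zone -/

/-- a lane which passes over the zone: right to `c`, up by `q`, right, down by `q`, right -/
def upp (q w c h : ℕ) (i : ℕ) : ℕ × ℕ :=
  if i < c then (i, h) else if i ≤ c + q then (c, h + (i - c)) else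
    if i < w - 1 - c + q then (i - q, h + q) else
      if i ≤ w - 1 - c + 2 * q then (w - 1 - c, h + (w - 1 - c + 2 * q - i)) else (i - 2 * q, h)

lemma upp_mem {q w c h : ℕ} (hw : 2 * c + 2 ≤ w) {v : ℕ × ℕ}
    (hv : v ∈ pth (upp q w c h) (w + 2 * q)) :
    v.1 < w ∧ h ≤ v.2 ∧ v.2 ≤ h + q ∧ ((v.2 = h ∧ (v.1 ≤ c ∨ w ≤ v.1 + c + 1)) ∨
      (v.1 = c ∨ v.1 + c + 1 = w) ∨ (v.2 = h + q ∧ c ≤ v.1 ∧ v.1 + c + 1 ≤ w)) := by
  obtain ⟨i, hi, rfl⟩ := mem_pth.1 hv
  unfold upp
  split_ifs <;> dsimp only <;> omega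

lemma upp_pth {q w c h : ℕ} (hw : 2 * c + 2 ≤ w) : IsPth (pth (upp q w c h) (w + 2 * q)) := by
  apply isPth_pth
  · intro i hi
    unfold upp
    split_ifs <;> apply adj_mk <;> omega
  · intro i j hij hj
    unfold upp
    split_ifs <;> apply ne_mk <;> omega

/-! ### the lane through the zone -/

/-- the zone: the snake with `2 * s + 2` columns of height `q` -/
def zon (q X h : ℕ) (i : ℕ) : ℕ × ℕ := (X + (C1Q.sn q i).1, h + (C1Q.sn q i).2)

lemma zon_mem {q X h W : ℕ} (hq : 0 < q) {v : ℕ × ℕ} (hv : v ∈ pth (zon q X h) (W * q)) :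
    X ≤ v.1 ∧ v.1 < X + W ∧ h ≤ v.2 ∧ v.2 < h + q := by
  obtain ⟨i, hi, rfl⟩ := mem_pth.1 hv
  have h1 := C1Q.sn_fst_lt hi
  have h2 := C1Q.sn_snd_lt (z := i) hq
  unfold zon
  refine ⟨?_, ?_, ?_, ?_⟩ <;> simp only <;> omega

lemma zon_pth {q X h W : ℕ} (hq : 0 < q) : IsPth (pth (zon q X h) (W * q)) := by
  apply isPth_pth
  · intro i _
    have := C1Q.sn_adj (z := i) hq
    unfold adj at this ⊢
    unfold zon
    simp only
    omega
  · intro i j hij _ he
    have h1 := congrArg Prod.fst he
    have h2 := congrArg Prod.snd he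
    unfold zon at h1 h2
    simp only at h1 h2
    have h3 : C1Q.sn q i = C1Q.sn q j := by
      ext <;> omega
    have h4 := congrArg (C1Q.pos q) h3
    rw [C1Q.pos_sn hq, C1Q.pos_sn hq] at h4
    omega

lemma zon_zone {q X h W s o' : ℕ} (hq : 2 ≤ q) (hW : 4 ≤ W) (hs : s + 2 ≤ W) (h1 : h ≤ o')
    (h2 : o' + s ≤ h + q) :
    Zone q (pth (zon q X h) (W * q)) (rect (X + 2) o' s s) := by
  have h4 : 4 * q ≤ W * q := Nat.mul_le_mul_right _ hW
  refine ⟨?_, ?_, ?_⟩
  · intro j hj
    refine ⟨zon q X h (q - 1 - j), zon q X h (q + j), ?_, ?_, ?_⟩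
    · unfold pth
      rw [List.getElem?_map, List.getElem?_range (by omega)]
      rfl
    · unfold pth
      rw [List.getElem?_map, List.getElem?_range (by omega)]
      rfl
    · have := C1Q.sn_rung (s := 0) hj
      rw [Nat.zero_mul, Nat.zero_add] at this
      unfold adj at this ⊢
      unfold zon
      simp only
      omega
  · unfold pth
    rw [List.length_map, List.length_range]
    omega
  · rintro v ⟨v1, v2, v3, v4⟩
    have hp : C1Q.pos q (v.1 - X, v.2 - h) ∈ Ico (2 * q) (W * q) :=
      C1Q.pos_mem_Ico (by simp only; omega) (by simp only; omega) (by simp only; omega)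
    obtain ⟨p1, p2⟩ := hp
    rw [List.mem_iff_getElem?]
    refine ⟨C1Q.pos q (v.1 - X, v.2 - h) - 2 * q, ?_⟩
    rw [List.getElem?_drop, show 2 * q + (C1Q.pos q (v.1 - X, v.2 - h) - 2 * q) =
      C1Q.pos q (v.1 - X, v.2 - h) by omega]
    unfold pth
    rw [List.getElem?_map, List.getElem?_range p2, Option.map_some]
    congr 1
    unfold zon
    rw [C1Q.sn_pos (by simp only; omega)]
    ext <;> simp only <;> omega

/-- the lane through the zone -/
def mid (q s X w h : ℕ) : List (ℕ × ℕ) :=
  pth (str h) X ++ pth (zon q X h) ((2 * s + 2) * q) ++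
    pth (fun i => (X + (2 * s + 2) + i, h)) (w - (X + (2 * s + 2)))

lemma mid_mem {q s X w h : ℕ} (hq : 0 < q) (hX : X + (2 * s + 2) ≤ w) {v : ℕ × ℕ}
    (hv : v ∈ mid q s X w h) : v.1 < w ∧ h ≤ v.2 ∧ v.2 < h + q ∧
      (v.2 = h ∨ (X ≤ v.1 ∧ v.1 < X + (2 * s + 2))) := by
  unfold mid at hv
  rw [List.mem_append, List.mem_append] at hv
  rcases hv with (hv | hv) | hv
  · have := str_mem hv
    omega
  · have := zon_mem hq hv
    omega
  · obtain ⟨i, hi, rfl⟩ := mem_pth.1 hv
    dsimp only
    omega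

lemma mid_pth {q s X w h : ℕ} (hq : 0 < q) (hX : 0 < X) (hw : X + (2 * s + 2) < w) :
    IsPth (mid q s X w h) := by
  have hl : 0 < (2 * s + 2) * q := Nat.mul_pos (by omega) hq
  unfold mid
  apply isPth_append
  · apply isPth_append str_pth (zon_pth hq)
    · intro v h1 h2
      have e1 := str_mem h1
      have e2 := zon_mem hq h2
      omega
    · intro a b ha hb
      rw [last_pth hX, Option.some.injEq] at ha
      rw [head_pth hl, Option.some.injEq] at hb
      subst ha hb
      unfold adj str zon C1Q.sn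
      simp only [Nat.zero_div, Nat.zero_mod, if_true]
      omega
  · apply isPth_pth
    · intro i _
      exact adj_mk (by omega)
    · intro i j hij _
      exact ne_mk (by omega)
  · intro v h1 h2
    rw [List.mem_append] at h1
    obtain ⟨i, hi, rfl⟩ := mem_pth.1 h2
    rcases h1 with h1 | h1
    · have e1 := str_mem h1
      simp only at e1
      omega
    · have e1 := zon_mem hq h1
      simp only at e1
      omega
  · intro a b ha hb
    rw [List.getLast?_append, last_pth hl, Option.some_or, Option.some.injEq] at ha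
    rw [head_pth (by omega), Option.some.injEq] at hb
    subst ha hb
    have e0 : (2 * s + 2) * q - 1 = q * (2 * s + 1) + (q - 1) := by
      have : (2 * s + 2) * q = q * (2 * s + 1) + q := by ring
      omega
    have e1 : ((2 * s + 2) * q - 1) / q = 2 * s + 1 := by
      rw [e0, Nat.mul_add_div hq, Nat.div_eq_of_lt (by omega), add_zero]
    have e2 : ((2 * s + 2) * q - 1) % q = q - 1 := by
      rw [e0, Nat.mul_add_mod, Nat.mod_eq_of_lt (by omega)]
    unfold adj zon C1Q.sn
    rw [e1, e2]
    simp only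
    rw [if_neg (by omega)]
    omega

lemma mid_head {q s X w h : ℕ} (hX : 0 < X) : (mid q s X w h).head? = some (0, h) := by
  unfold mid
  rw [List.head?_append, List.head?_append, head_pth hX]
  rfl

lemma mid_last {q s X w h : ℕ} (hw : X + (2 * s + 2) < w) :
    (mid q s X w h).getLast? = some (w - 1, h) := by
  unfold mid
  rw [List.getLast?_append, last_pth (by omega), Option.some_or]
  congr 1
  ext
  · simp only
    omega
  · rfl

/-- ROW GEO-A -/
theorem cellStmt {k q s : ℕ} (hq : 2 ≤ q) (hs : 1 ≤ s) (hkq : k + s ≤ q) : CellStmt k q s := by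
  refine ⟨2 * (q + s + k + 2) + s, q + s + k + 2, k, rfl, by omega, by omega, by omega, ?_⟩
  set w := 2 * (q + s + k + 2) + s with hw
  rintro (_ | g)
  · refine ⟨fun h => pth (str h) w, fun h => ⟨str_pth, ?_, ?_, ?_⟩, ?_, ?_, ?_⟩
    · rw [head_pth (by omega)]
      rfl
    · rw [last_pth (by omega)]
      rfl
    · intro v hv
      have := str_mem hv
      have := h.2
      unfold rect
      simp only [mem_ofPred_eq]
      omega
    · intro h h' hh v h1 h2
      have e1 := str_mem h1
      have e2 := str_mem h2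
      apply hh
      ext
      omega
    · intro h _ v hv hr
      have e1 := str_mem hv
      have := h.2
      obtain ⟨r1, r2, r3, r4⟩ := hr
      omega
    · intro h hh
      exact absurd hh (by simp)
  · have hg := g.2
    let l : Fin k → List (ℕ × ℕ) := fun h => if (h : ℕ) < g then pth (str h) w else
      if (h : ℕ) = g then mid q s (q + s + k) w h else pth (upp q w (k - 1 - h) h) (w + 2 * q)
    have hl1 : ∀ h : Fin k, (h : ℕ) < g → l h = pth (str h) w := fun h hh => if_pos hh
    have hl2 : ∀ h : Fin k, (h : ℕ) = g → l h = mid q s (q + s + k) w h := fun h hh => by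
      simp only [l]
      rw [if_neg (by omega), if_pos hh]
    have hl3 : ∀ h : Fin k, (g : ℕ) < h → l h = pth (upp q w (k - 1 - h) h) (w + 2 * q) :=
      fun h hh => by
        simp only [l]
        rw [if_neg (by omega), if_neg (by omega)]
    have hmem : ∀ (h : Fin k) (v : ℕ × ℕ), v ∈ l h →
        ((h : ℕ) < g ∧ v.2 = h ∧ v.1 < w) ∨
        ((h : ℕ) = g ∧ v.1 < w ∧ h ≤ v.2 ∧ v.2 < h + q ∧
          (v.2 = h ∨ (q + s + k ≤ v.1 ∧ v.1 < q + s + k + (2 * s + 2)))) ∨
        ((g : ℕ) < h ∧ v.1 < w ∧ h ≤ v.2 ∧ v.2 ≤ h + q ∧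
          ((v.2 = h ∧ (v.1 ≤ (k - 1 - h) ∨ w ≤ v.1 + (k - 1 - h) + 1)) ∨
          (v.1 = (k - 1 - h) ∨ v.1 + (k - 1 - h) + 1 = w) ∨
          (v.2 = h + q ∧ (k - 1 - h) ≤ v.1 ∧ v.1 + (k - 1 - h) + 1 ≤ w))) := by
      intro h v hv
      have hh := h.2
      rcases lt_trichotomy (h : ℕ) g with h1 | h1 | h1
      · rw [hl1 h h1] at hv
        exact Or.inl ⟨h1, str_mem hv⟩
      · rw [hl2 h h1] at hv
        exact Or.inr (Or.inl ⟨h1, mid_mem (by omega) (by omega) hv⟩)
      · rw [hl3 h h1] at hv
        exact Or.inr (Or.inr ⟨h1, upp_mem (by omega) hv⟩)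
    refine ⟨l, fun h => ⟨?_, ?_, ?_, ?_⟩, ?_, ?_, ?_⟩
    · have hh := h.2
      rcases lt_trichotomy (h : ℕ) g with h1 | h1 | h1
      · rw [hl1 h h1]
        exact str_pth
      · rw [hl2 h h1]
        exact mid_pth (by omega) (by omega) (by omega)
      · rw [hl3 h h1]
        exact upp_pth (by omega)
    · have hh := h.2
      rcases lt_trichotomy (h : ℕ) g with h1 | h1 | h1
      · rw [hl1 h h1, head_pth (by omega)]
        rfl
      · rw [hl2 h h1]
        exact mid_head (by omega)
      · rw [hl3 h h1, head_pth (by omega)]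
        unfold upp
        congr 1
        split_ifs <;> ext <;> simp only <;> omega
    · have hh := h.2
      rcases lt_trichotomy (h : ℕ) g with h1 | h1 | h1
      · rw [hl1 h h1, last_pth (by omega)]
        rfl
      · rw [hl2 h h1]
        exact mid_last (by omega)
      · rw [hl3 h h1, last_pth (by omega)]
        unfold upp
        congr 1
        split_ifs <;> ext <;> simp only <;> omega
    · intro v hv
      have hh := h.2
      have := hmem h v hv
      unfold rect
      simp only [mem_ofPred_eq]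
      omega
    · intro h h' hne v h1 h2
      have hh := h.2
      have hh' := h'.2
      have e1 := hmem h v h1
      have e2 := hmem h' v h2
      have e3 : (h : ℕ) ≠ h' := fun he => hne (Fin.ext he)
      omega
    · intro h hne v hv hr
      have hh := h.2
      have e1 := hmem h v hv
      have e3 : (h : ℕ) ≠ g := fun he => hne (by rw [Fin.ext he])
      obtain ⟨r1, r2, r3, r4⟩ := hr
      omega
    · intro h he
      have hh := h.2
      have e1 : g = h := Option.some.inj he
      have e2 : (h : ℕ) = g := by rw [e1]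
      rw [hl2 h e2]
      refine ⟨_, _, _, rfl, ?_⟩
      exact zon_zone (X := q + s + k) (W := 2 * s + 2) hq (by omega) (by omega) (by omega)
        (by omega)

end BICS.C79
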